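import Pool.Agent.H51.NE.Main

/-!
# The Singer-Hopf sign for Einstein six-manifolds with an upper curvature bound

At a point of a Riemannian six-manifold where the Ricci tensor is `-5 κ` times the metric (`κ > 0`; so
the mean of the sectional curvatures is `-κ`) and all sectional curvatures are at most `-a κ`,
`1 / 3 ≤ a < 1` (no lower bound is assumed; the curvature can be as small as `-(5 - 4 a) κ`), minus the
Gauss-Bonnet-Chern integrand is at least `min 1 g(a)` times its absolute value for constant curvature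
`-κ`, where `g(a) = 1 + (8 / 9) (1 - a)² - (1184 / 243) (1 - a)³`. This is positive for `a ≥ 0.343`, and
it is `1` exactly for `a ≥ 121 / 148`; there is also a bound with the norm of the Weyl tensor. The
mirrored statement holds for `Ric = 5 κ` and sectional curvatures at least `a κ`.

So a closed Einstein six-manifold with `Ric = -5 κ`, `K ≤ -0.343 κ` (which is aspherical) has negative
Euler characteristic. Together with the theorem of the starting files on Einstein tensors with
`-2 κ ≤ K ≤ 0` this gives the sign for all Einstein six-manifolds of negative curvature with pinching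
constant `0.1715`, whatever the Einstein constant is; for general metrics the pinching constant of the
starting files is `8 / 35 = 0.228…`, which for Einstein metrics with an upper bound only amounts to
`a ≥ 0.597`.

The new pointwise inequality is `Pool.Agent.H51.NE.ff_ge`: an estimate for the eigenvalues of the Jacobi
operator of a unit vector and the sectional curvatures of its eigenvectors. The formula for the
integrand of an Einstein tensor as an average over the unit sphere is the one of `Pool/Agent/W714/HE/`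
and `Pool/Agent/H933R2/Hopf/`.
-/

namespace Pool.Agent.Results.MP_9d0d86_gt.EinsteinUpperBound

open Hopf6 MeasureTheory Pool.Agent.W714.HE Pool.Agent.W714.ES Pool.Agent.H31EE Pool.Agent.H51.NE

/-- Einstein curvature tensors in dimension six with sectional curvatures at most `-a κ`: sign and size
of the Gauss-Bonnet-Chern integrand. -/
theorem result :
    -- the pointwise bounds
    (∀ (V : Type) [NormedAddCommGroup V] [InnerProductSpace ℝ V]
      (e : OrthonormalBasis (Fin 6) ℝ V) (R : V → V → V → V → ℝ), AlgCurv R →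
      ∀ κ a : ℝ, 0 < κ → 1 / 3 ≤ a → a < 1 →
        (Einstein e R (-κ) → SecLE R (-(a * κ)) →
          Hopf6.gbc e R ≤
            -((1 + (148 * a - 121) / 3240 * (weylSq e R (-κ) / κ ^ 2)) * roundGB κ) ∧
          Hopf6.gbc e R ≤
            -(min 1 (1 + 8 / 9 * (1 - a) ^ 2 - 1184 / 243 * (1 - a) ^ 3) * roundGB κ) ∧
          (121 / 148 < a → Hopf6.gbc e R = -roundGB κ → ∀ x y z w,
            R x y z w = -κ * (inner ℝ x z * inner ℝ y w - inner ℝ x w * inner ℝ y z))) ∧
        (Einstein e R κ → SecGE R (a * κ) →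
          (1 + (148 * a - 121) / 3240 * (weylSq e R κ / κ ^ 2)) * roundGB κ ≤ Hopf6.gbc e R ∧
          min 1 (1 + 8 / 9 * (1 - a) ^ 2 - 1184 / 243 * (1 - a) ^ 3) * roundGB κ ≤
            Hopf6.gbc e R ∧
          (121 / 148 < a → Hopf6.gbc e R = roundGB κ → ∀ x y z w,
            R x y z w = κ * (inner ℝ x z * inner ℝ y w - inner ℝ x w * inner ℝ y z)))) ∧
    -- the constant
    (∀ a : ℝ, a < 1 →
      (1 ≤ 1 + 8 / 9 * (1 - a) ^ 2 - 1184 / 243 * (1 - a) ^ 3 ↔ 121 / 148 ≤ a) ∧
      (343 / 1000 ≤ a → 1 / 1000 ≤ 1 + 8 / 9 * (1 - a) ^ 2 - 1184 / 243 * (1 - a) ^ 3)) ∧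
    -- pinched Einstein tensors
    (∀ (V : Type) [NormedAddCommGroup V] [InnerProductSpace ℝ V]
      (e : OrthonormalBasis (Fin 6) ℝ V) (R : V → V → V → V → ℝ), AlgCurv R →
      ∀ κ c : ℝ, 0 < κ → 0 < c → Einstein e R (-κ) → SecIn R (-c) (-(343 / 2000 * c)) →
        Hopf6.gbc e R ≤ -(1 / 1000 * roundGB κ)) ∧
    -- the integrals
    (∀ (M : Type) [MeasurableSpace M] (μ : Measure M) (K : CurvField M) (κ : ℝ), 0 < κ →
      Integrable K.gbc μ →
        (∀ a : ℝ, 343 / 1000 ≤ a → a < 1 →
          (∀ p, Einstein (K.e p) (K.R p) (-κ) ∧ SecLE (K.R p) (-(a * κ))) →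
          μ Set.univ < ⊤ ∧ ∫ p, K.gbc p ∂μ ≤
            -(min 1 (1 + 8 / 9 * (1 - a) ^ 2 - 1184 / 243 * (1 - a) ^ 3) * roundGB κ *
              (μ Set.univ).toReal)) ∧
        (∀ a : ℝ, 343 / 1000 ≤ a → a < 1 →
          (∀ p, Einstein (K.e p) (K.R p) κ ∧ SecGE (K.R p) (a * κ)) →
          μ Set.univ < ⊤ ∧
          min 1 (1 + 8 / 9 * (1 - a) ^ 2 - 1184 / 243 * (1 - a) ^ 3) * roundGB κ *
            (μ Set.univ).toReal ≤ ∫ p, K.gbc p ∂μ) ∧
        (∀ c : ℝ, 0 < c →
          (∀ p, Einstein (K.e p) (K.R p) (-κ) ∧ K.SecIn p (-c) (-(343 / 2000 * c))) →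
          μ Set.univ < ⊤ ∧
          ∫ p, K.gbc p ∂μ ≤ -(1 / 1000 * roundGB κ * (μ Set.univ).toReal)) ∧
        -- equality
        (∀ a : ℝ, 121 / 148 < a → a < 1 →
          (∀ p, Einstein (K.e p) (K.R p) (-κ) ∧ SecLE (K.R p) (-(a * κ))) →
          ∫ p, K.gbc p ∂μ = -(roundGB κ * (μ Set.univ).toReal) →
          ∀ᵐ p ∂μ, ∀ x y z w, K.R p x y z w =
            -κ * (inner ℝ x z * inner ℝ y w - inner ℝ x w * inner ℝ y z))) := by
  -- the equality case
  have hW : ∀ (a t r : ℝ), 121 / 148 < a → 0 ≤ t → 0 < r →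
      (1 + (148 * a - 121) / 3240 * t) * r ≤ r → t = 0 := by
    intro a t r hk ht hr h
    have h1 : (148 * a - 121) / 3240 * t * r ≤ 0 := by linarith
    have h2 : 0 < (148 * a - 121) / 3240 * r := mul_pos (by linarith) hr
    nlinarith
  have hsq : ∀ (t κ : ℝ), 0 < κ → t / κ ^ 2 = 0 → t = 0 := by
    intro t κ hκ h
    have h2 : κ ^ 2 ≠ 0 := by positivity
    rcases div_eq_zero_iff.1 h with h3 | h3
    · exact h3
    · exact absurd h3 h2
  have hpt : ∀ (V : Type) [NormedAddCommGroup V] [InnerProductSpace ℝ V]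
      (e : OrthonormalBasis (Fin 6) ℝ V) (R : V → V → V → V → ℝ), AlgCurv R →
      ∀ κ a : ℝ, 0 < κ → 1 / 3 ≤ a → a < 1 →
        (Einstein e R (-κ) → SecLE R (-(a * κ)) →
          Hopf6.gbc e R ≤
            -((1 + (148 * a - 121) / 3240 * (weylSq e R (-κ) / κ ^ 2)) * roundGB κ) ∧
          Hopf6.gbc e R ≤
            -(min 1 (1 + 8 / 9 * (1 - a) ^ 2 - 1184 / 243 * (1 - a) ^ 3) * roundGB κ) ∧
          (121 / 148 < a → Hopf6.gbc e R = -roundGB κ → ∀ x y z w,
            R x y z w = -κ * (inner ℝ x z * inner ℝ y w - inner ℝ x w * inner ℝ y z))) ∧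
        (Einstein e R κ → SecGE R (a * κ) →
          (1 + (148 * a - 121) / 3240 * (weylSq e R κ / κ ^ 2)) * roundGB κ ≤ Hopf6.gbc e R ∧
          min 1 (1 + 8 / 9 * (1 - a) ^ 2 - 1184 / 243 * (1 - a) ^ 3) * roundGB κ ≤
            Hopf6.gbc e R ∧
          (121 / 148 < a → Hopf6.gbc e R = roundGB κ → ∀ x y z w,
            R x y z w = κ * (inner ℝ x z * inner ℝ y w - inner ℝ x w * inner ℝ y z))) := by
    intro V _ _ e R hR κ a hκ ha0 ha1
    have hr := roundGB_pos hκ
    constructor
    · intro hE h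
      have h1 := gbc_neg3 e ha0 ha1 hR hκ hE h
      have h0 : 0 ≤ weylSq e R (-κ) / κ ^ 2 :=
        div_nonneg (weylSq_nonneg e R (-κ)) (by positivity)
      refine ⟨h1.1, h1.2, ?_⟩
      intro hk1 heq x y z w
      refine weylSq_zero e hR (hsq _ κ hκ (hW a _ _ hk1 h0 hr ?_)) x y z w
      linarith [h1.1]
    · intro hE h
      have h1 := gbc_pos3 e ha0 ha1 hR hκ hE h
      have h0 : 0 ≤ weylSq e R κ / κ ^ 2 := div_nonneg (weylSq_nonneg e R κ) (by positivity)
      refine ⟨h1.1, h1.2, ?_⟩
      intro hk1 heq x y z w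
      refine weylSq_zero e hR (hsq _ κ hκ (hW a _ _ hk1 h0 hr ?_)) x y z w
      linarith [h1.1]
  -- the constant
  have hone : ∀ a : ℝ, a < 1 →
      (1 ≤ 1 + 8 / 9 * (1 - a) ^ 2 - 1184 / 243 * (1 - a) ^ 3 ↔ 121 / 148 ≤ a) := by
    intro a ha
    have hk1 : 0 < (1 - a) ^ 2 := by
      have : 0 < 1 - a := by linarith
      positivity
    have e1 : 1 + 8 / 9 * (1 - a) ^ 2 - 1184 / 243 * (1 - a) ^ 3 =
        1 + 8 / 243 * ((1 - a) ^ 2 * (148 * a - 121)) := by ring
    rw [e1]
    constructor
    · intro h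
      by_contra hc
      push Not at hc
      have : (1 - a) ^ 2 * (148 * a - 121) < 0 := mul_neg_of_pos_of_neg hk1 (by linarith)
      linarith
    · intro h
      have : 0 ≤ (1 - a) ^ 2 * (148 * a - 121) := mul_nonneg hk1.le (by linarith)
      linarith
  have hpos : ∀ a : ℝ, 343 / 1000 ≤ a → a < 1 →
      0 < min 1 (1 + 8 / 9 * (1 - a) ^ 2 - 1184 / 243 * (1 - a) ^ 3) := by
    intro a ha ha1
    have := const_mono ha ha1
    exact lt_min one_pos (by linarith)
  -- finiteness of the measure and comparison of the integral with the volume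
  have hint : ∀ (M : Type) [MeasurableSpace M] (μ : Measure M) (f : M → ℝ) (r : ℝ), 0 < r →
      Integrable f μ → (∀ p, r ≤ f p) →
        μ Set.univ < ⊤ ∧ r * (μ Set.univ).toReal ≤ ∫ p, f p ∂μ ∧
        (∫ p, f p ∂μ = r * (μ Set.univ).toReal → ∀ᵐ p ∂μ, f p = r) := by
    intro M _ μ f r hr hf h
    have hlt : μ Set.univ < ⊤ := by
      have h1 := hf.measure_norm_ge_lt_top hr
      have h2 : {x | r ≤ ‖f x‖} = Set.univ := by
        ext p
        simp only [Set.mem_ofPred_eq, Set.mem_univ, iff_true, Real.norm_eq_abs]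
        exact (h p).trans (le_abs_self _)
      rwa [h2] at h1
    have : IsFiniteMeasure μ := ⟨hlt⟩
    have hc : ∫ _ : M, r ∂μ = r * (μ Set.univ).toReal := by
      rw [integral_const, smul_eq_mul, mul_comm]
      rfl
    have hsub : ∫ p, (f p - r) ∂μ = ∫ p, f p ∂μ - r * (μ Set.univ).toReal := by
      rw [integral_sub hf (integrable_const r), hc]
    have hnn : 0 ≤ fun p => f p - r := fun p => sub_nonneg.2 (h p)
    refine ⟨hlt, ?_, ?_⟩
    · have := integral_nonneg (μ := μ) hnn
      rw [hsub] at this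
      linarith
    · intro heq
      have h0 : ∫ p, (f p - r) ∂μ = 0 := by rw [hsub, heq, sub_self]
      rw [integral_eq_zero_iff_of_nonneg hnn (hf.sub (integrable_const r))] at h0
      filter_upwards [h0] with p hp
      have : f p - r = 0 := hp
      linarith
  refine ⟨hpt, fun a ha => ⟨hone a ha, fun h => const_mono h ha⟩, ?_, ?_⟩
  · intro V _ _ e R hR κ c hκ hc hE h
    exact pinched e hR hc hκ hE (fun x y hx hy hxy => (h x y hx hy hxy).1)
      (fun x y hx hy hxy => (h x y hx hy hxy).2)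
  · intro M _ μ K κ hκ hi
    have hr := roundGB_pos hκ
    have h3 : ∀ p, Hopf6.gbc (K.e p) (K.R p) = K.gbc p := fun p => rfl
    refine ⟨?_, ?_, ?_, ?_⟩
    · intro a ha ha1 h
      have h1 := hint M μ (fun p => -K.gbc p) _ (mul_pos (hpos a ha ha1) hr) hi.neg fun p => by
        have := ((hpt (K.V p) (K.e p) (K.R p) (K.curv p) κ a hκ (by linarith) ha1).1
          (h p).1 (h p).2).2.1
        rw [h3 p] at this
        linarith
      rw [integral_neg] at h1
      exact ⟨h1.1, by linarith [h1.2.1]⟩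
    · intro a ha ha1 h
      have h1 := hint M μ K.gbc _ (mul_pos (hpos a ha ha1) hr) hi fun p =>
        ((hpt (K.V p) (K.e p) (K.R p) (K.curv p) κ a hκ (by linarith) ha1).2
          (h p).1 (h p).2).2.1
      exact ⟨h1.1, h1.2.1⟩
    · intro c hc h
      have h1 := hint M μ (fun p => -K.gbc p) (1 / 1000 * roundGB κ) (by positivity) hi.neg
        fun p => by
          have := pinched (K.e p) (K.curv p) hc hκ (h p).1
            (fun x y hx hy hxy => ((h p).2 x y hx hy hxy).1)
            (fun x y hx hy hxy => ((h p).2 x y hx hy hxy).2)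
          rw [h3 p] at this
          linarith
      rw [integral_neg] at h1
      exact ⟨h1.1, by linarith [h1.2.1]⟩
    · intro a ha ha1 h heq
      have hmin : min 1 (1 + 8 / 9 * (1 - a) ^ 2 - 1184 / 243 * (1 - a) ^ 3) = 1 :=
        min_eq_left ((hone a ha1).2 ha.le)
      have h1 := (hint M μ (fun p => -K.gbc p) (roundGB κ) hr hi.neg fun p => by
        have := ((hpt (K.V p) (K.e p) (K.R p) (K.curv p) κ a hκ (by linarith) ha1).1
          (h p).1 (h p).2).2.1
        rw [hmin, one_mul, h3 p] at this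
        linarith).2.2 (by rw [integral_neg, heq, neg_neg])
      filter_upwards [h1] with p hp
      refine ((hpt (K.V p) (K.e p) (K.R p) (K.curv p) κ a hκ (by linarith) ha1).1
        (h p).1 (h p).2).2.2 ha ?_
      rw [h3 p]
      linarith

end Pool.Agent.Results.MP_9d0d86_gt.EinsteinUpperBound
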