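import Pool.Agent.H70PR.Iso
import Pool.Agent.H70PR.Ex2

/-!
# The Singer–Hopf sign for curvature tensors invariant under a rotation of a plane

In dimension six the Gauss–Bonnet–Chern integrand need not have the sign of the Hopf conjecture for
curvature tensors of nonpositive sectional curvature (Geroch, Klembeck).

1. `PlaneRotation δ R`: dimension six, the sectional curvatures are at most `-δ` and `R` is invariant
   under a linear isometry `g` which fixes the vectors of a four-dimensional subspace and satisfies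
   `g² ≠ 1` (a rotation of a plane by an angle outside `π ℤ`). Then the integrand has the sign of the
   Hopf conjecture, with the sharp bound by its value for constant curvature `-δ`.
2. `BlockSum δ R` and `Warped δ R`, all even dimensions: `R + δ · (unit tensor)` is a sum of tensors
   `S i` of nonpositive sectional curvature living on the blocks of an orthogonal sum, minus squares
   `(x ∧ y)²` or plus Kulkarni–Nomizu products coupling the blocks; each block has dimension at most
   five, or it is the sum of a plane and of a subspace of dimension at most four and `S i` is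
   invariant on it under a linear map rotating the plane and fixing the vectors of the subspace.
3. Integrated forms.
4. The angle `π` is a true exception (`HalfTurn δ R`), even for negative sectional curvature.

Proof of 1 for `δ = 0` (`Pool/Agent/H70PR/`). Let `p, q` span the plane and `W` be the fixed space,
`S = -R`. By invariance the nonzero components are `k = S p q p q`, the form
`a (w, w') = S p w p w' = S q w q w'`, the two-form `b (w, w') = S p q w w' = 2 S p w q w'` and the
restriction of `S` to `W`. After a small change `a` is positive definite; choose a basis of `W`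
orthonormal for `a`. The double sum over permutations becomes `192 / k` times
`T = tr (ρ ∗ ρ ∗) + 3 ρ (∗ b, ∗ b) + 4 tr ρ` with `ρ = k S|W`, and nonnegative sectional curvature
means `y² + 3 y b (u, v) + 2 |y| + ρ (u, v, u, v) ≥ 0` for all real `y` and orthonormal `u, v`. For a
tensor `σ` of nonnegative sectional curvature in dimension four there is `t` with
`tr (σ ∗ σ ∗) ≥ 6 t²`, `tr σ ≥ 6 |t|`, `σ (∗ b, ∗ b) ≥ - 2 t Pf b` (Thorpe). If `|Pf b| ≤ 4`, take
`σ = ρ`; if `|Pf b| > 4`, take for `σ` the sum of `ρ`, of minus the curvature part of `b ⊗ b` and of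
`4 / 5` of the unit tensor, which has nonnegative sectional curvature by the condition with
`y = - 2 b (u, v) / 3`.
-/

set_option autoImplicit false

namespace Pool.Agent.Results.MP_9d0d86_gt.PlaneRotation

open Pool.Agent.W666.GB Pool.Agent.W669.HD Pool.Agent.Y519.HB Module

variable {V : Type} [NormedAddCommGroup V] [InnerProductSpace ℝ V]

/-- Dimension six; the sectional curvatures are at most `-δ`; the tensor is invariant under a linear
isometry `g` with `g² ≠ 1` which fixes the vectors of a four-dimensional subspace. -/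
structure PlaneRotation (δ : ℝ) (R : V → V → V → V → ℝ) : Prop where
  dim : finrank ℝ V = 6
  curv : AlgCurv R
  sec : ∀ a b, R a b a b + δ * unitT a b a b ≤ 0
  rot : ∃ (g : V ≃ₗᵢ[ℝ] V) (W : Submodule ℝ V), finrank ℝ W = 4 ∧ (∀ w ∈ W, g w = w) ∧
    (∃ x, g (g x) ≠ x) ∧ ∀ a b c d, R (g a) (g b) (g c) (g d) = R a b c d

/-- Dimension six; the sectional curvatures are at most `-δ`; the tensor is invariant under the
rotation of a plane by the angle `π`. -/
structure HalfTurn (δ : ℝ) (R : V → V → V → V → ℝ) : Prop where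
  dim : finrank ℝ V = 6
  curv : AlgCurv R
  sec : ∀ a b, R a b a b + δ * unitT a b a b ≤ 0
  rot : ∃ (g : V ≃ₗᵢ[ℝ] V) (W : Submodule ℝ V), finrank ℝ W = 4 ∧ (∀ w ∈ W, g w = w) ∧
    (∀ x ∈ Wᗮ, g x = -x) ∧ ∀ a b c d, R (g a) (g b) (g c) (g d) = R a b c d

/-- The tensors allowed on a block `U`: the block has dimension at most five, or it is the sum of
the plane of `p`, `q` and of a subspace `W` of dimension at most four and `S` is invariant on `U`
under a linear map rotating the plane and fixing the vectors of `W`. -/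
def Admissible (U : Submodule ℝ V) (S : V → V → V → V → ℝ) : Prop :=
  finrank ℝ U ≤ 5 ∨
  ∃ (p q : V) (W : Submodule ℝ V) (g : V →ₗ[ℝ] V) (c s : ℝ),
    Submodule.span ℝ {p, q} ⊔ W = U ∧ finrank ℝ W ≤ 4 ∧ c ^ 2 + s ^ 2 = 1 ∧ s ≠ 0 ∧
    g p = c • p + s • q ∧ g q = (-s) • p + c • q ∧ (∀ w ∈ W, g w = w) ∧
    ∀ x ∈ U, ∀ y ∈ U, ∀ z ∈ U, ∀ w ∈ U, S (g x) (g y) (g z) (g w) = S x y z w

/-- Admissible tensors of nonpositive sectional curvature on orthogonal blocks, minus squares
`(x ∧ y)²` with `x` in one block and `y` in one block, minus `δ` times the unit tensor. -/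
def BlockSum (δ : ℝ) (R : V → V → V → V → ℝ) : Prop :=
  ∃ (r : ℕ) (U : Fin r → Submodule ℝ V) (S : Fin r → V → V → V → V → ℝ) (n : ℕ)
    (x y : Fin n → V) (p q : Fin n → Fin r), OrthSum U ∧ (∀ i, AlgCurv (S i)) ∧
    (∀ i, LivesOn (U i) (S i)) ∧ (∀ i a b, S i a b a b ≤ 0) ∧ (∀ i, Admissible (U i) (S i)) ∧
    (∀ k, x k ∈ U (p k)) ∧ (∀ k, y k ∈ U (q k)) ∧
    ∀ a b c d, R a b c d = (∑ i, S i a b c d) - (∑ k, sqDec (x k) (y k) a b c d) -
      δ * unitT a b c d

/-- Tensors of multiply warped type with sectional curvatures at most `-δ`: an admissible tensor on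
each block and one Kulkarni–Nomizu product `h ∧ k` for each pair of blocks. -/
def Warped (δ : ℝ) (R : V → V → V → V → ℝ) : Prop :=
  ∃ (r : ℕ) (U : Fin r → Submodule ℝ V) (S : Fin r → V → V → V → V → ℝ)
    (h k : Fin r → Fin r → V → V → ℝ), OrthSum U ∧
    (∀ i, Admissible (U i) (S i)) ∧
    (∀ i, AlgCurv (S i)) ∧ (∀ i, LivesOn (U i) (S i)) ∧
    (∀ i j, SymForm (U i) (h i j)) ∧ (∀ i j, SymForm (U j) (k i j)) ∧
    (∀ a b c d, R a b c d + δ * unitT a b c d = (∑ i, S i a b c d) +
      ∑ i, ∑ j, if i < j then kn (h i j) (k i j) a b c d else 0) ∧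
    ∀ a b, R a b a b + δ * unitT a b a b ≤ 0

theorem span_mem {p q : V} {W U : Submodule ℝ V} (hU : Submodule.span ℝ {p, q} ⊔ W = U) :
    p ∈ U ∧ q ∈ U ∧ W ≤ U ∧ ∀ x ∈ U, ∃ α β : ℝ, ∃ w ∈ W, x = α • p + β • q + w := by
  subst hU
  refine ⟨Submodule.mem_sup_left (Submodule.subset_span (Set.mem_insert _ _)),
    Submodule.mem_sup_left (Submodule.subset_span (Set.mem_insert_of_mem _ rfl)), le_sup_right,
    fun x hx => ?_⟩
  obtain ⟨y, hy, w, hw, rfl⟩ := Submodule.mem_sup.1 hx
  obtain ⟨α, β, rfl⟩ := Submodule.mem_span_pair.1 hy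
  exact ⟨α, β, w, hw, rfl⟩

theorem admissible_hopf [FiniteDimensional ℝ V] {U : Submodule ℝ V} {S : V → V → V → V → ℝ}
    (hS : AlgCurv S) (hs : ∀ a b, S a b a b ≤ 0) (hL : LivesOn U S) (h : Admissible U S) :
    HopfOn U S := by
  rcases h with h | ⟨p, q, W, g, c, s, hU, hW, hcs, hs0, hp, hq, hgW, hinv⟩
  · exact hopf_twoFive (twoFive_one hS h hL hs) U
  · obtain ⟨hpU, hqU, hWU, hsp⟩ := span_mem hU
    have hmem : ∀ x, (x = p ∨ x = q ∨ x ∈ W) → x ∈ U := by
      rintro x (rfl | rfl | hx)
      · exact hpU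
      · exact hqU
      · exact hWU hx
    exact Pool.Agent.H70PR.hopf_rot hS hs hpU hqU hWU hW hsp
      (Pool.Agent.H70PR.rel_of_inv hS hs0 hcs hp hq hgW fun x y z w hx hy hz hw =>
        hinv x (hmem x hx) y (hmem y hy) z (hmem z hz) w (hmem w hw))

theorem block_hopf [FiniteDimensional ℝ V] {δ : ℝ} {R : V → V → V → V → ℝ}
    (h : BlockSum δ R) : HopfBlocks δ R := by
  obtain ⟨r, U, S, n, x, y, p, q, hO, hS, hL, hs, hA, hx, hy, hR⟩ := h
  exact ⟨r, U, S, n, x, y, p, q, hO, hS, hL,
    fun i => admissible_hopf (hS i) (hs i) (hL i) (hA i), hx, hy, hR⟩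

theorem warped_warp [FiniteDimensional ℝ V] {δ : ℝ} {R : V → V → V → V → ℝ}
    (h : Warped δ R) : WarpType δ R := by
  obtain ⟨r, U, S, h, k, hO, hA, hS, hL, hh, hk, hR, hK⟩ := h
  have hs := Pool.Agent.H31HS.warp_sec hO hS hL hh hk hR hK
  exact ⟨r, U, S, h, k, hO, fun i => Or.inr (admissible_hopf (hS i) (hs i) (hL i) (hA i)), hS, hL,
    hh, hk, hR, hK⟩

theorem rotation_block {δ : ℝ} {R : V → V → V → V → ℝ} (h : PlaneRotation δ R) :
    HopfBlocks δ R := by
  obtain ⟨hd, hc, hs, g, W, hW, hgW, hx, hg⟩ := h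
  have hfin : FiniteDimensional ℝ V := FiniteDimensional.of_finrank_pos (by omega)
  have hcurv : AlgCurv (fun a b c d => R a b c d + δ * unitT a b c d) := by
    have h2 := Pool.Agent.H31HS.add_curv' hc (unit_curv (V := V) 1) δ
    have h3 : (fun a b c d => R a b c d + δ * (1 * unitT a b c d)) =
        fun a b c d => R a b c d + δ * unitT a b c d := by
      funext a b c d
      ring
    rwa [h3] at h2
  obtain ⟨p, q, hsp, hr⟩ := Pool.Agent.H70PR.iso_rel hd hcurv g hW hgW hx fun a b c d => by
    simp only [hg, unitT, LinearIsometryEquiv.inner_map_map]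
  refine ⟨1, fun _ => ⊤, fun _ a b c d => R a b c d + δ * unitT a b c d, 0, Fin.elim0, Fin.elim0,
    Fin.elim0, Fin.elim0, ⟨?_, by simp⟩, fun _ => hcurv, ?_, fun _ => ?_,
    fun k => k.elim0, fun k => k.elim0, ?_⟩
  · intro i j hij
    exact absurd (Subsingleton.elim i j) hij
  · intro i a ha y z w
    rw [Submodule.top_orthogonal_eq_bot, Submodule.mem_bot] at ha
    rw [ha]
    have := hcurv.smul 0 0 y z w
    simpa using this
  · exact Pool.Agent.H70PR.hopf_rot hcurv hs Submodule.mem_top Submodule.mem_top le_top hW.le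
      (fun x _ => hsp x) hr
  · intro a b c d
    simp

/-- The three classes of tensors. -/
def Allowed (δ : ℝ) (R : V → V → V → V → ℝ) : Prop :=
  PlaneRotation δ R ∨ BlockSum δ R ∨ Warped δ R

theorem allowed_hopf [FiniteDimensional ℝ V] {δ : ℝ} {R : V → V → V → V → ℝ}
    (h : Allowed δ R) : HopfBlocks δ R ∨ FiveBlocks δ R ∨ WarpType δ R := by
  rcases h with h | h | h
  · exact Or.inl (rotation_block h)
  · exact Or.inl (block_hopf h)
  · exact Or.inr (Or.inr (warped_warp h))

/-- **The Hopf sign for curvature tensors invariant under a rotation of a plane, and for blocks and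
warped types built from them.** -/
theorem result :
    -- pointwise, with the value for constant curvature `-δ`
    (∀ (m : ℕ) (V : Type) [NormedAddCommGroup V] [InnerProductSpace ℝ V]
      (e : OrthonormalBasis (Fin m × Bool) ℝ V) (R : V → V → V → V → ℝ) (δ : ℝ),
      0 ≤ δ → Allowed δ R → roundGB m δ ≤ (-1) ^ m * gbc e R) ∧
    -- the integral
    (∀ (m : ℕ) (M : Type) [MeasurableSpace M] (μ : MeasureTheory.Measure M) (K : CurvField m M),
      (∀ p, Allowed 0 (K.R p)) → 0 ≤ (-1) ^ m * ∫ p, K.gb p ∂μ) ∧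
    (∀ (m : ℕ) (M : Type) [MeasurableSpace M] (μ : MeasureTheory.Measure M)
      [MeasureTheory.IsFiniteMeasure μ] (K : CurvField m M) (δ : ℝ),
      MeasureTheory.Integrable K.gb μ → 0 ≤ δ → (∀ p, Allowed δ (K.R p)) →
        roundGB m δ * μ.real Set.univ ≤ (-1) ^ m * ∫ p, K.gb p ∂μ) ∧
    -- rotations of a plane by the angle `π` do not suffice, even for negative curvature
    (∃ (V : Type) (_ : NormedAddCommGroup V) (_ : InnerProductSpace ℝ V)
      (e : OrthonormalBasis (Fin 3 × Bool) ℝ V) (R : V → V → V → V → ℝ) (δ : ℝ),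
      0 < δ ∧ HalfTurn δ R ∧ (-1) ^ 3 * gbc e R < 0) := by
  refine ⟨fun m V _ _ e R δ hδ h => ?_, fun m M _ μ K h => ?_, fun m M _ μ _ K δ hi hδ h => ?_, ?_⟩
  · have hfin : FiniteDimensional ℝ V := Module.Finite.of_basis e.toBasis
    exact cls_bound e hδ (allowed_hopf h)
  · refine field_cls μ K fun p => ?_
    have hfin : FiniteDimensional ℝ (K.V p) := Module.Finite.of_basis (K.e p).toBasis
    exact allowed_hopf (h p)
  · refine field_clsδ μ K hi hδ fun p => ?_
    have hfin : FiniteDimensional ℝ (K.V p) := Module.Finite.of_basis (K.e p).toBasis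
    exact allowed_hopf (h p)
  · obtain ⟨δ, R, g, W, h1, h2, h3, h4, h5, h6, h7, h8⟩ := Pool.Agent.H70PR.example_pi
    refine ⟨Pool.Agent.H70PR.E6, inferInstance, inferInstance, Pool.Agent.H70PR.e6, R, δ, h1, ⟨?_, h2, h3, g, W, h4, h5, h6, h7⟩, by linarith⟩
    rw [finrank_euclideanSpace]
    simp

end Pool.Agent.Results.MP_9d0d86_gt.PlaneRotation
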