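import Pool.Agent.H38HP.Wrap

/-!
# The Singer-Hopf sign in dimension six for Ptolemaic nonpositive curvature

For a curvature tensor `R` of nonpositive sectional curvature on a six-dimensional Euclidean vector
space write `k (x, y) = -R (x, y, x, y)`. If `k` satisfies the inequality of Ptolemy with the factor
`28 / 27`, that is `27 k(x,y) k(z,w) ≤ 28 (√(k(x,z) k(y,w)) + √(k(x,w) k(y,z)))²` for all vectors,
then the Gauss-Bonnet-Chern integrand is nonpositive; if all sectional curvatures are at most `-κ`, it
is at most `1 / 50` of its value for constant curvature `-κ`. Curvature operators of the second kind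
that are nonpositive on the traceless symmetric tensors satisfy the hypothesis with factor `1`.

Proof (`Pool/Agent/H38HP/`). The hypotheses do not involve the inner product, and the integrand
depends on it only through the volume form. Among all inner products with the given volume (and
limits of the corresponding tensors in orthonormal frames) there is one with minimal `-scal`; for it
the tensor is Einstein, with Ricci curvature `-5 κ₀`. For orthonormal `x, y` Ptolemy's inequality for
the pairs `x, y` and `z_i, z_j` of an orthonormal basis and the Cauchy-Schwarz inequality give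
`27 K (5 κ₀ + K) ≤ 42 (5 κ₀ - K)²` with `K = k(x, y)`, so `K ≤ 2 κ₀`; then the estimate for Einstein
tensors of `Pool/Agent/W714/HE/` (a development of the starting repository) applies.
-/

set_option autoImplicit false

namespace Pool.Agent.Results.MP_9d0d86_gt.PtolemaicDimSix

open Hopf6 MeasureTheory Pool.Agent.H38HP

/-- The Singer-Hopf sign in dimension six for Ptolemaic nonpositive curvature. -/
theorem result :
    -- the pointwise bound
    (∀ (V : Type) [NormedAddCommGroup V] [InnerProductSpace ℝ V]
      (e : OrthonormalBasis (Fin 6) ℝ V) (R : V → V → V → V → ℝ), AlgCurv R → Ptolemaic R →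
      ∀ κ : ℝ, 0 ≤ κ → SecLE R κ → Hopf6.gbc e R ≤ -(1 / 50 * roundGB κ)) ∧
    -- the same for nonpositive sectional curvature and the scalar curvatures of unimodular frames
    (∀ (V : Type) [NormedAddCommGroup V] [InnerProductSpace ℝ V]
      (e : OrthonormalBasis (Fin 6) ℝ V) (R : V → V → V → V → ℝ), AlgCurv R → Ptolemaic R →
      SecLE R 0 → ∀ κ : ℝ, 0 ≤ κ → UnimodularLE e R κ →
        Hopf6.gbc e R ≤ -(1 / 50 * roundGB κ)) ∧
    -- nonpositive curvature operators of the second kind
    (∀ (V : Type) [NormedAddCommGroup V] [InnerProductSpace ℝ V]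
      (e : OrthonormalBasis (Fin 6) ℝ V) (R : V → V → V → V → ℝ), AlgCurv R →
      SecondKindNonpos e R →
        SecLE R 0 ∧ Ptolemaic R ∧ ∀ x y z w : V, R x y x y * R z w z w ≤
          (Real.sqrt (R x z x z * R y w y w) + Real.sqrt (R x w x w * R y z y z)) ^ 2) ∧
    -- the sign of the integral
    (∀ (M : Type) [MeasurableSpace M] (μ : Measure M) [IsFiniteMeasure μ] (K : CurvField M)
      (κ : ℝ), 0 ≤ κ → (∀ p, SecLE (K.R p) κ ∧ Ptolemaic (K.R p)) →
      Integrable K.gbc μ → 1 / 50 * roundGB κ * μ.real Set.univ ≤ -∫ p, K.gbc p ∂μ) := by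
  refine ⟨fun V _ _ e R hR hp κ hκ hs => point_sec e hR hκ hs hp,
    fun V _ _ e R hR hp hs κ hκ hu => point_uni e hR hs hp hκ hu, ?_, ?_⟩
  · intro V _ _ e R hR h
    obtain ⟨h1, h2⟩ := second_kind e hR h
    refine ⟨h1, fun x y z w => ?_, h2⟩
    have h3 := h2 x y z w
    have h4 := sq_nonneg
      (Real.sqrt (R x z x z * R y w y w) + Real.sqrt (R x w x w * R y z y z))
    linarith
  · intro M _ μ _ K κ hκ h hint
    have h1 : ∀ p, K.gbc p ≤ -(1 / 50 * roundGB κ) := by
      intro p
      exact point_sec (K.e p) (K.curv p) hκ (h p).1 (h p).2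
    have h2 : ∫ p, K.gbc p ∂μ ≤ ∫ _, -(1 / 50 * roundGB κ) ∂μ :=
      integral_mono hint (integrable_const _) h1
    rw [integral_const, smul_eq_mul] at h2
    linarith

end Pool.Agent.Results.MP_9d0d86_gt.PtolemaicDimSix
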