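import Pool.Agent.H77CM.A14
import Pool.Agent.R781.CubeAQ

/-!
# The Singer-Hopf inequality for Davis' reflection group manifolds and for resolved cubical manifolds

Let `P` be a compact manifold of dimension `2 m` with a flag triangulation `L` of its boundary. Davis' reflection
group trick produces a closed manifold `X` from `(P, L)`, which is aspherical if and only if `P` is. More generally
let `Y` be a compact nonpositively curved cubical complex of dimension `2 m` whose vertex links `L v` are closed
manifolds (not only spheres), and let `P v` be a compact manifold with boundary `L v` (a ball if `L v` is a sphere).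
If one replaces the conical neighbourhoods of the vertices `v` by the `P v` one obtains a closed manifold `X`, which
is aspherical if the `P v` are, and
`χ(X) = χ(Y) + ∑ (χ(P v) - 1)`.

We prove `(-1)^m χ(X) ≥ ∑ t v` if the `P v` have finite coverings of degree `d` whose Betti numbers satisfy
`b_m - 2 (b_(m+1) + ... + b_(2m)) ≥ (t v - ε) d`, with `ε > 0` arbitrarily small. This holds with `t v = b_m (P v)`
if the Betti numbers of `P v` vanish above the middle dimension, and with `t v = 0` if the normalised Betti numbers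
above the middle dimension can be made arbitrarily small.
-/

set_option autoImplicit false

namespace Pool.Agent.Results.MP_9d0d86_gt.ResolvedCubicalManifolds

open Pool.Agent.W497.FS Pool.Agent.W497.CC Pool.Agent.W907.SG Pool.Agent.W907.SM Pool.Agent.R781.CubeAQ
open Pool.Agent.H77CM

/-- For every `ε > 0` the flag complex of `J` has a finite covering, oriented relative to the boundary, with `d`
sheets, such that `b_m - 2 (b_(m+1) + ... + b_(2m)) ≥ (t - ε) d` for the Betti numbers of the covering. -/
def CoverBound (m : ℕ) {U : Type} (J : SimpleGraph U) (B : Set U) (t : ℚ) : Prop :=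
  ∀ ε : ℚ, 0 < ε → ∃ (U' : Type) (_ : Fintype U') (_ : LinearOrder U') (J' : SimpleGraph U') (q : U' → U) (d : ℕ),
    0 < d ∧ IsCov J' J q d ∧ Oriented m J' (q ⁻¹' B) ∧
      (t - ε) * d ≤ (rb J' Set.univ (m + 1) : ℚ) - 2 * ∑ j ∈ Finset.range m, (rb J' Set.univ (m + 2 + j) : ℚ)

/-- The link of the vertex `v` is the boundary of a piece with Euler characteristic `c` and with coverings as in
`CoverBound`. -/
def Filling (m : ℕ) {P : Type} [PartialOrder P] (v : P) (c : ℤ) (t : ℚ) : Prop :=
  ∃ (U : Type) (_ : Fintype U) (_ : LinearOrder U) (J : SimpleGraph U) (B : Set U),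
    IsGraphLink v (J.induce B) ∧ Piece m J B ∧ CoverBound m J B t ∧ c = chiF J

/-- The Singer-Hopf inequality for resolved cubical manifolds. -/
theorem result (m : ℕ) (hm : 1 ≤ m) (P : Type) [Fintype P] [PartialOrder P] (dim : P → ℕ) (hP : IsCubical P dim)
    (c : P → ℤ) (t : P → ℚ) (hv : ∀ v : P, dim v = 0 → Filling m v (c v) (t v)) :
    ∑ v ∈ Finset.univ.filter (fun v : P => dim v = 0), t v ≤
      (-1 : ℚ) ^ m * ((chi P dim : ℚ) + ∑ v ∈ Finset.univ.filter (fun v : P => dim v = 0), ((c v : ℚ) - 1)) := by
  classical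
  have h1 : ∀ v : P, ∃ p : Σ n : ℕ, Finset (Finset (Fin n)), dim v = 0 →
      IsLink v p.2 ∧ (∀ F ∈ p.2, ∀ F' : Finset (Fin p.1), F' ⊆ F → F' ∈ p.2) ∧
        t v ≤ (-1 : ℚ) ^ m * (omega p.2 + ((c v : ℚ) - 1)) := by
    intro v
    by_cases hd : dim v = 0
    · obtain ⟨U, _, _, J, B, hG, hJ, ht, hc⟩ := hv v hd
      refine ⟨⟨Fintype.card ↥B, fam (Fintype.equivFin ↥B) (J.induce B)⟩, fun _ =>
        ⟨isLink_fam _ hG, fam_down _ _, ?_⟩⟩
      rw [omega_fam, hc]
      have h2 := piece_bound hm hJ ht
      unfold kap at h2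
      have e : chiW (J.induce B) + ((chiF J : ℚ) - 1) = (chiF J : ℚ) - 1 + chiW (J.induce B) := by ring
      rw [e]
      exact h2
    · exact ⟨⟨0, ∅⟩, fun h => absurd h hd⟩
  choose p hp using h1
  have h2 := chi_eq hP (fun v => (p v).1) (fun v => (p v).2) (fun v hv => (hp v hv).1)
    (fun v hv => (hp v hv).2.1)
  rw [h2, ← Finset.sum_add_distrib, Finset.mul_sum]
  exact Finset.sum_le_sum fun v hv => (hp v (Finset.mem_filter.mp hv).2).2.2

end Pool.Agent.Results.MP_9d0d86_gt.ResolvedCubicalManifolds
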